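import Pool.Agent.Lib.MP_28303a_al.NT.A.Iface
import Pool.Agent.Lib.MP_28303a_al.NT.H80.Perf

/-! # Resolutions in every degree -/

set_option autoImplicit false
set_option linter.unusedSectionVars false
set_option linter.unusedVariables false

namespace Pool.Agent.NegK.NT.H91

universe u

open CategoryTheory Limits Pretriangulated

/-- The homology of a shift. -/
theorem hq_shift {k : Type u} [Ring k] {Γ : Type u} [Group Γ] {B : Type u} [MulAction Γ B]
    {P : Pre Γ B} (X : KK k P) (a m n : ℤ) (h : a + m = n) :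
    Nonempty ((hq k P m).obj (X⟦a⟧) ≅ (hq k P n).obj X) := by
  let e1 := ((Loc.ev (k := k) (P := P)).mapHomotopyCategory (ComplexShape.up ℤ)).commShiftIso a
  let e2 := (HomotopyCategory.homologyFunctor (Fn k P) (ComplexShape.up ℤ) 0).shiftIso a m n h
  exact ⟨(HomotopyCategory.homologyFunctor (Fn k P) (ComplexShape.up ℤ) m).mapIso (e1.app X) ≪≫
    e2.app _⟩

theorem resn : ResnStatement.{u} := by
  intro k _ Γ _ B _ P AA hA n M hM
  obtain ⟨R, hR, ⟨e⟩, h0⟩ := hA.res M hM
  refine ⟨R⟦-n⟧, per_shift hR (-n), ?_, fun m hm => ?_⟩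
  · obtain ⟨e1⟩ := hq_shift R (-n) n 0 (by ring)
    exact ⟨e1 ≪≫ e⟩
  · obtain ⟨e1⟩ := hq_shift R (-n) m (-n + m) rfl
    exact (h0 (-n + m) (by
      intro h
      exact hm (by linarith))).of_iso e1

end Pool.Agent.NegK.NT.H91
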